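import Mathlib

set_option autoImplicit false

/-!
# The combinatorial core: joins of sparse families of balls have finite classes
-/

namespace Pool.Agent.Q203.TRS

open Set Relation

variable {V : Type} (Kr : ℕ → V → V → Prop)

theorem kr_mono (hrefl : ∀ n x, Kr n x x)
    (hcomp : ∀ n x y z, Kr n x y → Kr n y z → Kr (n + 1) x z) {n m : ℕ} (h : n ≤ m) {x y : V}
    (hxy : Kr n x y) : Kr m x y := by
  induction m, h using Nat.le_induction with
  | base => exact hxy
  | succ m _ ih => exact hcomp m x y y ih (hrefl m y)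

theorem kr_pow (hrefl : ∀ n x, Kr n x x)
    (hcomp : ∀ n x y z, Kr n x y → Kr n y z → Kr (n + 1) x z) (p : ℕ) :
    ∀ (a l : ℕ), l ≤ 2 ^ a → ∀ c : ℕ → V, (∀ i < l, Kr p (c i) (c (i + 1))) →
      Kr (p + a) (c 0) (c l) := by
  intro a
  induction a with
  | zero =>
    intro l hl c hc
    have : l = 0 ∨ l = 1 := by
      simp at hl
      omega
    rcases this with rfl | rfl
    · exact hrefl _ _
    · exact hc 0 (by omega)
  | succ a ih =>
    intro l hl c hc
    have h2 : 2 ^ (a + 1) = 2 ^ a + 2 ^ a := by ring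
    by_cases h : l ≤ 2 ^ a
    · exact kr_mono Kr hrefl hcomp (by omega) (ih l h c hc)
    · have h3 := ih (2 ^ a) le_rfl c fun i hi => hc i (by omega)
      have h4 := ih (l - 2 ^ a) (by omega) (fun i => c (2 ^ a + i)) fun i hi => by
        have := hc (2 ^ a + i) (by omega)
        exact this
      have h5 : 2 ^ a + (l - 2 ^ a) = l := by omega
      simp only [h5, add_zero] at h4
      exact hcomp _ _ _ _ h3 h4

theorem exists_chain {A : V → V → Prop} {u v : V} (h : ReflTransGen A u v) :
    ∃ (l : ℕ) (c : ℕ → V), c 0 = u ∧ c l = v ∧ ∀ i < l, A (c i) (c (i + 1)) := by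
  classical
  induction h with
  | refl => exact ⟨0, fun _ => u, rfl, rfl, fun i hi => absurd hi (by omega)⟩
  | @tail b w _ hbw ih =>
    obtain ⟨l, c, h0, hl, hc⟩ := ih
    refine ⟨l + 1, Function.update c (l + 1) w, ?_, ?_, ?_⟩
    · rw [Function.update_of_ne (by omega)]
      exact h0
    · simp
    · intro i hi
      rcases Nat.lt_or_ge i l with h | h
      · rw [Function.update_of_ne (by omega), Function.update_of_ne (by omega)]
        exact hc i h
      · have : i = l := by omega
        subst this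
        rw [Function.update_of_ne (by omega), Function.update_self, hl]
        exact hbw

/-- Components of a sparse union of `N` pieces are small. -/
theorem kr_comp (hrefl : ∀ n x, Kr n x x)
    (hcomp : ∀ n x y z, Kr n x y → Kr n y z → Kr (n + 1) x z) {T : Type} (p : ℕ) (Z : Set V)
    (Tn : Set T) (hT : Tn.Finite) (P : T → V → Prop) (hP : ∀ u ∈ Z, ∃ t ∈ Tn, P t u)
    (hsp : ∀ t ∈ Tn, ∀ u ∈ Z, ∀ v ∈ Z, P t u → P t v → Kr (p + Tn.ncard) u v → u = v) {u v : V}
    (h : ReflTransGen (fun u v => u ∈ Z ∧ v ∈ Z ∧ Kr p u v) u v) : Kr (p + Tn.ncard) u v := by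
  obtain ⟨l, c, rfl, rfl, hc⟩ := exists_chain h
  clear h
  set N := Tn.ncard with hN
  have hN2 : N ≤ 2 ^ N := Nat.lt_two_pow_self.le
  induction l using Nat.strong_induction_on generalizing c with
  | _ l ih =>
    by_cases hl : l ≤ N
    · exact kr_pow Kr hrefl hcomp p N l (hl.trans hN2) c fun i hi => (hc i hi).2.2
    · push Not at hl
      have hZ : ∀ i ≤ l, c i ∈ Z := by
        intro i hi
        rcases Nat.lt_or_ge i l with h | h
        · exact (hc i h).1
        · have : i = (l - 1) + 1 := by omega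
          rw [this]
          exact (hc (l - 1) (by omega)).2.1
      have hch : ∀ i : Fin (N + 1), ∃ t ∈ Tn, P t (c i) := fun i => hP _ (hZ i (by omega))
      choose t ht1 ht2 using hch
      obtain ⟨i, _, j, _, hij, hte⟩ : ∃ i ∈ (Finset.univ : Finset (Fin (N + 1))),
          ∃ j ∈ (Finset.univ : Finset (Fin (N + 1))), i ≠ j ∧ t i = t j := by
        apply Finset.exists_ne_map_eq_of_card_lt_of_maps_to (t := hT.toFinset)
        · rw [← Set.ncard_eq_toFinset_card Tn hT, Finset.card_univ, Fintype.card_fin]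
          omega
        · intro i _
          simpa using ht1 i
      have key : ∀ i j : Fin (N + 1), i < j → t i = t j → Kr (p + N) (c 0) (c l) := by
        intro i j hij hte
        have hij' : (i : ℕ) < j := hij
        have hj : (j : ℕ) ≤ N := by omega
        have hK : Kr (p + N) (c i) (c j) := by
          have := kr_pow Kr hrefl hcomp p N (j - i) (le_trans (by omega) hN2)
            (fun k => c (i + k)) fun k hk => (hc (i + k) (by omega)).2.2
          have h5 : (i : ℕ) + (j - i) = j := by omega
          simpa [h5] using this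
        have heq : c i = c j := hsp (t i) (ht1 i) _ (hZ i (by omega)) _ (hZ j (by omega)) (ht2 i)
          (hte ▸ ht2 j) hK
        have := ih (l - (j - i)) (by omega) (fun k => if k ≤ i then c k else c (k + (j - i))) ?_
        · have h6 : ¬ (l - (j - i) ≤ (i : ℕ)) := by omega
          have h7 : l - (j - i) + (j - i) = l := by omega
          simpa [h6, h7] using this
        · intro k hk
          by_cases hk1 : k + 1 ≤ i
          · have hk2 : k ≤ (i : ℕ) := by omega
            simp only [hk1, hk2, if_true]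
            exact hc k (by omega)
          · by_cases hk2 : k ≤ (i : ℕ)
            · have hk3 : k = i := by omega
              subst hk3
              simp only [le_refl, if_true, hk1, if_false]
              have h8 : (i : ℕ) + 1 + (j - i) = j + 1 := by omega
              rw [h8, heq]
              exact hc j (by omega)
            · simp only [hk1, hk2, if_false]
              have h8 : k + 1 + (j - i) = (k + (j - i)) + 1 := by omega
              rw [h8]
              exact hc (k + (j - i)) (by omega)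
      rcases lt_or_gt_of_ne hij with h | h
      · exact key i j h hte
      · exact key j i h hte.symm

/-- The bounds. -/
def qb (cd : ℕ → ℕ) : ℕ → ℕ
  | 0 => 0
  | n + 1 => max n (qb cd n) + cd n + 4

/-- The generating graph: balls of radius `m` around the points of `X m`, for `m < n`. -/
def Hg (Xs : ℕ → Set V) (n : ℕ) (x y : V) : Prop :=
  ∃ m < n, (x ∈ Xs m ∨ y ∈ Xs m) ∧ Kr m x y

theorem hg_symm (hsymm : ∀ n x y, Kr n x y → Kr n y x) (Xs : ℕ → Set V) (n : ℕ) :
    ∀ x y, Hg Kr Xs n x y → Hg Kr Xs n y x :=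
  fun _ _ ⟨m, hm, h1, h2⟩ => ⟨m, hm, h1.symm, hsymm _ _ _ h2⟩

theorem rtg_symm {H : V → V → Prop} (hH : ∀ x y, H x y → H y x) {x y : V}
    (h : ReflTransGen H x y) : ReflTransGen H y x := by
  induction h with
  | refl => exact ReflTransGen.refl
  | tail _ h ih => exact ReflTransGen.head (hH _ _ h) ih

theorem hg_key (hrefl : ∀ n x, Kr n x x) (hsymm : ∀ n x y, Kr n x y → Kr n y x)
    (hcomp : ∀ n x y z, Kr n x y → Kr n y z → Kr (n + 1) x z) {T : Type} (Xs : ℕ → Set V)
    (Tn : ℕ → Set T) (hT : ∀ n, (Tn n).Finite) (P : T → V → Prop)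
    (hP : ∀ n, ∀ u ∈ Xs n, ∃ t ∈ Tn n, P t u)
    (hsp : ∀ n, ∀ t ∈ Tn n, ∀ u ∈ Xs n, ∀ v ∈ Xs n, P t u → P t v →
      Kr (max n (qb (fun n => (Tn n).ncard) n) + 2 + (Tn n).ncard) u v → u = v) (n : ℕ) :
    ∀ x y, ReflTransGen (Hg Kr Xs n) x y → Kr (qb (fun n => (Tn n).ncard) n) x y := by
  set q := qb (fun n => (Tn n).ncard) with hq
  induction n with
  | zero =>
    intro x y h
    have : x = y := by
      induction h with
      | refl => rfl
      | tail _ h _ =>
        obtain ⟨m, hm, _⟩ := h
        omega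
    subst this
    exact hrefl _ _
  | succ n ih =>
    intro x y hxy
    set m := max n (q n) with hm
    set N := (Tn n).ncard with hN
    have hqs : q (n + 1) = m + N + 4 := rfl
    have mono : ∀ {a b : ℕ} (_ : a ≤ b) {x y : V}, Kr a x y → Kr b x y :=
      fun h _ _ hxy => kr_mono Kr hrefl hcomp h hxy
    let G := ReflTransGen (Hg Kr Xs n)
    have hGs : ∀ {x y}, G x y → G y x := fun h => rtg_symm (hg_symm Kr hsymm Xs n) h
    let A : V → V → Prop := fun u v => u ∈ Xs n ∧ v ∈ Xs n ∧ Kr (m + 2) u v
    have hA : ∀ u v, ReflTransGen A u v → Kr (m + 2 + N) u v := fun u v h =>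
      kr_comp Kr hrefl hcomp (m + 2) (Xs n) (Tn n) (hT n) P (hP n) (hsp n) h
    let Nr : V → V → Prop := fun x u => u ∈ Xs n ∧ ∃ x', G x x' ∧ Kr n x' u
    have hNr : ∀ x u, Nr x u → Kr (m + 1) x u := by
      rintro x u ⟨_, x', h1, h2⟩
      exact hcomp m _ _ _ (mono (le_max_right _ _) (ih _ _ h1)) (mono (le_max_left _ _) h2)
    have hS : G x y ∨ ∃ u v, Nr x u ∧ Nr y v ∧ ReflTransGen A u v := by
      induction hxy with
      | refl => exact Or.inl ReflTransGen.refl
      | @tail y z _ hyz ihS =>
        obtain ⟨m', hm', h1, h2⟩ := hyz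
        rcases Nat.lt_or_ge m' n with hlt | hge
        · have hGyz : G y z := ReflTransGen.single ⟨m', hlt, h1, h2⟩
          rcases ihS with h | ⟨u, v, hu, ⟨hv1, y', hy1, hy2⟩, huv⟩
          · exact Or.inl (h.trans hGyz)
          · exact Or.inr ⟨u, v, hu, ⟨hv1, y', (hGs hGyz).trans hy1, hy2⟩, huv⟩
        · have : m' = n := by omega
          subst this
          obtain ⟨w, hw, hwy, hwz⟩ : ∃ w ∈ Xs m', Kr m' y w ∧ Kr m' z w := by
            rcases h1 with h | h
            · exact ⟨y, h, hrefl _ _, hsymm _ _ _ h2⟩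
            · exact ⟨z, h, h2, hrefl _ _⟩
          have hNz : Nr z w := ⟨hw, z, ReflTransGen.refl, hwz⟩
          rcases ihS with h | ⟨u, v, hu, hv, huv⟩
          · exact Or.inr ⟨w, w, ⟨hw, y, h, hwy⟩, hNz, ReflTransGen.refl⟩
          · refine Or.inr ⟨u, w, hu, hNz, huv.tail ⟨hv.1, hw, ?_⟩⟩
            have h3 := hNr y v hv
            exact hcomp (m + 1) _ _ _ (hsymm _ _ _ h3)
              (mono (le_trans (le_max_left _ _) (Nat.le_succ _)) hwy)
    rw [hqs]
    rcases hS with h | ⟨u, v, hu, hv, huv⟩
    · exact mono (le_trans (le_max_right n (q n)) (by omega)) (ih _ _ h)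
    · have h1 := mono (show m + 1 ≤ m + 2 + N by omega) (hNr x u hu)
      have h2 := hA u v huv
      have h3 := hcomp _ _ _ _ h1 h2
      have h4 := mono (show m + 1 ≤ m + 2 + N + 1 by omega) (hsymm _ _ _ (hNr y v hv))
      have h5 := hcomp _ _ _ _ h3 h4
      exact mono (by omega) h5

end Pool.Agent.Q203.TRS
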