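import Mathlib

set_option autoImplicit false

/-!
# Topological Ramsey spaces: axioms, cubes, depth, fusion
-/

namespace Pool.Agent.Q203.TRS

open Set

/-- A (closed) topological Ramsey space in the sense of Todorcevic: a set `R` of infinite objects,
the set `AR` of their finite approximations, the approximation maps `r n`, the relation `le` on `R`
and its finitization `lf` on `AR`, satisfying the axioms A.1, A.2, A.3, A.4, and closed. -/
structure TopRamsey (R AR : Type) where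
  /-- the `n`-th finite approximation -/
  r : ℕ → R → AR
  /-- the relation `A ≤ B` -/
  le : R → R → Prop
  /-- the relation `a ≤_fin b` -/
  lf : AR → AR → Prop
  /-- `AR` is the set of all finite approximations -/
  surj : ∀ a : AR, ∃ (n : ℕ) (A : R), r n A = a
  /-- A.1 (1) -/
  a1a : ∀ A B : R, r 0 A = r 0 B
  /-- A.1 (2) -/
  a1b : ∀ A B : R, A ≠ B → ∃ n, r n A ≠ r n B
  /-- A.1 (3) -/
  a1c : ∀ (A B : R) (n m : ℕ), r n A = r m B → n = m ∧ ∀ k < n, r k A = r k B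
  /-- `≤_fin` is a quasi-ordering -/
  lf_refl : ∀ a : AR, lf a a
  /-- `≤_fin` is a quasi-ordering -/
  lf_trans : ∀ a b c : AR, lf a b → lf b c → lf a c
  /-- A.2 (1) -/
  a2a : ∀ b : AR, {a | lf a b}.Finite
  /-- A.2 (2) -/
  a2b : ∀ A B : R, le A B ↔ ∀ n, ∃ m, lf (r n A) (r m B)
  /-- A.2 (3): if `a ⊑ b` and `b ≤_fin c` then `a ≤_fin d` for some `d ⊑ c` -/
  a2c : ∀ (X : R) (m n : ℕ), m ≤ n → ∀ (Z : R) (k : ℕ), lf (r n X) (r k Z) →
    ∃ l ≤ k, lf (r m X) (r l Z)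
  /-- A.3 (1): if `depth_B(a) = n < ∞` then `[a, A] ≠ ∅` for all `A ∈ [n, B]` -/
  a3a : ∀ (a : AR) (B : R) (n : ℕ), (lf a (r n B) ∧ ∀ m < n, ¬ lf a (r m B)) →
    ∀ A : R, le A B → r n A = r n B → ∃ X, le X A ∧ ∃ k, r k X = a
  /-- A.3 (2): if `A ≤ B` and `[a, A] ≠ ∅` then there is `A' ∈ [depth_B(a), B]` with
  `∅ ≠ [a, A'] ⊆ [a, A]` -/
  a3b : ∀ (a : AR) (A B : R) (n : ℕ), le A B → (∃ X, le X A ∧ ∃ k, r k X = a) →
    (lf a (r n B) ∧ ∀ m < n, ¬ lf a (r m B)) →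
    ∃ A', (le A' B ∧ r n A' = r n B) ∧ (∃ X, le X A' ∧ ∃ k, r k X = a) ∧
      ∀ X, le X A' → (∃ k, r k X = a) → le X A
  /-- A.4: if `a = r k W` has `depth_B(a) = n < ∞` and `O` is a set of approximations, then there
  is `A ∈ [n, B]` with `r (k+1) [a, A] ⊆ O` or `r (k+1) [a, A] ⊆ Oᶜ` -/
  a4 : ∀ (W : R) (k : ℕ) (B : R) (n : ℕ),
    (lf (r k W) (r n B) ∧ ∀ m < n, ¬ lf (r k W) (r m B)) → ∀ O : Set AR,
    ∃ A, (le A B ∧ r n A = r n B) ∧
      ((∀ X, le X A → r k X = r k W → r (k + 1) X ∈ O) ∨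
        (∀ X, le X A → r k X = r k W → r (k + 1) X ∉ O))
  /-- `R` is closed in `AR ^ ℕ` -/
  closed : ∀ x : ℕ → AR, (∀ n, ∃ A : R, ∀ k ≤ n, r k A = x k) → ∃ A : R, ∀ n, r n A = x n

namespace TopRamsey

variable {R AR : Type} (S : TopRamsey R AR)

/-- The cube `[a, B] = {A ≤ B : a = r n A for some n}`. -/
def cube (a : AR) (B : R) : Set R := {A | S.le A B ∧ ∃ n, S.r n A = a}

/-- The cube `[n, B] = [r n B, B]`. -/
def nb (n : ℕ) (B : R) : Set R := {A | S.le A B ∧ S.r n A = S.r n B}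

/-- `depth_B(a) = n`. -/
def IsDepth (B : R) (a : AR) (n : ℕ) : Prop := S.lf a (S.r n B) ∧ ∀ m < n, ¬ S.lf a (S.r m B)

theorem le_refl' (A : R) : S.le A A := (S.a2b A A).2 fun n => ⟨n, S.lf_refl _⟩

theorem le_trans' {A B C : R} (h1 : S.le A B) (h2 : S.le B C) : S.le A C := by
  rw [S.a2b] at *
  intro n
  obtain ⟨m, hm⟩ := h1 n
  obtain ⟨k, hk⟩ := h2 m
  exact ⟨k, S.lf_trans _ _ _ hm hk⟩

theorem r_mono {A B : R} {n m : ℕ} (h : S.r n A = S.r n B) (hm : m ≤ n) : S.r m A = S.r m B := by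
  rcases hm.lt_or_eq with h' | rfl
  · exact (S.a1c A B n n h).2 m h'
  · exact h

theorem nb_eq (n : ℕ) (B : R) : S.nb n B = S.cube (S.r n B) B := by
  ext A
  constructor
  · rintro ⟨h1, h2⟩
    exact ⟨h1, n, h2⟩
  · rintro ⟨h1, k, h2⟩
    have := (S.a1c A B k n h2).1
    subst this
    exact ⟨h1, h2⟩

theorem self_nb (n : ℕ) (B : R) : B ∈ S.nb n B := ⟨S.le_refl' B, rfl⟩

theorem nb_trans {n : ℕ} {A B C : R} (h1 : A ∈ S.nb n B) (h2 : B ∈ S.nb n C) : A ∈ S.nb n C :=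
  ⟨S.le_trans' h1.1 h2.1, h1.2.trans h2.2⟩

theorem cube_mono {a : AR} {A B : R} (h : S.le A B) : S.cube a A ⊆ S.cube a B :=
  fun _ hX => ⟨S.le_trans' hX.1 h, hX.2⟩

theorem self_cube (m : ℕ) (x : R) : x ∈ S.cube (S.r m x) x := ⟨S.le_refl' x, m, rfl⟩

theorem depth_congr {A B : R} {n : ℕ} (h : S.r n A = S.r n B) {a : AR} (ha : S.IsDepth A a n) :
    S.IsDepth B a n := by
  refine ⟨h ▸ ha.1, fun m hm => ?_⟩
  rw [← S.r_mono h hm.le]
  exact ha.2 m hm

theorem depth_unique {B : R} {a : AR} {n m : ℕ} (h1 : S.IsDepth B a n) (h2 : S.IsDepth B a m) :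
    n = m := by
  rcases lt_trichotomy n m with h | h | h
  · exact absurd h1.1 (h2.2 n h)
  · exact h
  · exact absurd h2.1 (h1.2 m h)

theorem exists_depth {B : R} {x : R} (hx : S.le x B) (k : ℕ) : ∃ n, S.IsDepth B (S.r k x) n := by
  classical
  have h := (S.a2b x B).1 hx k
  exact ⟨Nat.find h, Nat.find_spec h, fun m hm => Nat.find_min h hm⟩

theorem exists_depth' {B : R} {a : AR} (h : (S.cube a B).Nonempty) : ∃ n, S.IsDepth B a n := by
  obtain ⟨x, hx, k, rfl⟩ := h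
  exact S.exists_depth hx k

theorem depth_mono {B x : R} {j k m n : ℕ} (hjk : j ≤ k) (h1 : S.IsDepth B (S.r j x) m)
    (h2 : S.IsDepth B (S.r k x) n) : m ≤ n := by
  obtain ⟨l, hl, hl'⟩ := S.a2c x j k hjk B n h2.1
  by_contra hcon
  push Not at hcon
  exact h1.2 l (by omega) hl'

theorem depth_finite (B : R) (n : ℕ) : {a | S.IsDepth B a n}.Finite :=
  (S.a2a (S.r n B)).subset fun _ ha => ha.1

theorem depth_large {B x : R} (hx : S.le x B) (N : ℕ) : ∃ n ≥ N, ∃ k, S.IsDepth B (S.r k x) n := by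
  by_contra hcon
  push Not at hcon
  have hfin : (⋃ n ∈ Set.Iio N, {a | S.IsDepth B a n}).Finite :=
    (Set.finite_Iio N).biUnion fun n _ => S.depth_finite B n
  have hinj : Function.Injective (fun k => S.r k x) := fun a b h => (S.a1c x x a b h).1
  have hsub : Set.range (fun k => S.r k x) ⊆ ⋃ n ∈ Set.Iio N, {a | S.IsDepth B a n} := by
    rintro _ ⟨k, rfl⟩
    obtain ⟨n, hn⟩ := S.exists_depth hx k
    have : n < N := by
      by_contra h
      exact hcon n (by omega) k hn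
    exact Set.mem_biUnion (Set.mem_Iio.2 this) hn
  exact Set.infinite_range_of_injective hinj (hfin.subset hsub)

theorem cube_nonempty {A B : R} {a : AR} {n : ℕ} (h : S.IsDepth B a n) (hA : A ∈ S.nb n B) :
    (S.cube a A).Nonempty := by
  obtain ⟨X, h1, h2⟩ := S.a3a a B n h A hA.1 hA.2
  exact ⟨X, h1, h2⟩

theorem amalg {A B : R} {a : AR} {n : ℕ} (hAB : S.le A B) (hne : (S.cube a A).Nonempty)
    (h : S.IsDepth B a n) : ∃ A' ∈ S.nb n B, (S.cube a A').Nonempty ∧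
      S.cube a A' ⊆ S.cube a A := by
  obtain ⟨X, hX1, hX2⟩ := hne
  obtain ⟨A', h1, ⟨Y, hY1, hY2⟩, h3⟩ := S.a3b a A B n hAB ⟨X, hX1, hX2⟩ h
  exact ⟨A', h1, ⟨Y, hY1, hY2⟩, fun Z hZ => ⟨h3 Z hZ.1 hZ.2, hZ.2⟩⟩

/-- Limit of a fusion sequence. -/
theorem fusion_limit (A : ℕ → R) (hA : ∀ n, A (n + 1) ∈ S.nb n (A n)) :
    ∃ B, (∀ n, S.r n B = S.r n (A n)) ∧ ∀ n, S.le B (A n) := by
  have hle : ∀ n m, n ≤ m → S.le (A m) (A n) := by
    intro n m h
    induction m, h using Nat.le_induction with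
    | base => exact S.le_refl' _
    | succ m _ ih => exact S.le_trans' (hA m).1 ih
  have hr : ∀ n m, n ≤ m → S.r n (A m) = S.r n (A n) := by
    intro n m h
    induction m, h using Nat.le_induction with
    | base => rfl
    | succ m hm ih => rw [S.r_mono (hA m).2 hm, ih]
  obtain ⟨B, hB⟩ := S.closed (fun n => S.r n (A n)) fun n => ⟨A n, fun k hk => hr k n hk⟩
  refine ⟨B, hB, fun n => ?_⟩
  rw [S.a2b]
  intro k
  have h1 := hle n (max n k) (le_max_left _ _)
  rw [S.a2b] at h1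
  obtain ⟨m, hm⟩ := h1 k
  refine ⟨m, ?_⟩
  rw [hB k, ← hr k (max n k) (le_max_right _ _)]
  exact hm

/-- General fusion: a hereditary property which can be achieved at every approximation of depth
`n` inside `[n, A]` can be achieved simultaneously. -/
theorem fusion (Q : ℕ → R → AR → Prop)
    (hmono : ∀ n A B a, S.IsDepth A a n → Q n A a → B ∈ S.nb n A → Q n B a)
    (hstep : ∀ n A a, S.IsDepth A a n → ∃ B ∈ S.nb n A, Q n B a) (A : R) (n0 : ℕ) :
    ∃ B ∈ S.nb n0 A, ∀ n ≥ n0, ∀ a, S.IsDepth B a n → Q n B a := by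
  classical
  have hall : ∀ n A, ∃ B ∈ S.nb n A, ∀ a, S.IsDepth A a n → Q n B a := by
    intro n A
    have key : ∀ F : Finset AR, (∀ a ∈ F, S.IsDepth A a n) → ∃ B ∈ S.nb n A, ∀ a ∈ F, Q n B a := by
      intro F
      induction F using Finset.induction_on with
      | empty => exact fun _ => ⟨A, S.self_nb n A, by simp⟩
      | insert a F _ ih =>
        intro hF
        obtain ⟨B, hB, hQ⟩ := ih fun b hb => hF b (Finset.mem_insert_of_mem hb)
        have hd : ∀ b ∈ insert a F, S.IsDepth B b n := fun b hb => S.depth_congr hB.2.symm (hF b hb)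
        obtain ⟨C, hC, hQC⟩ := hstep n B a (hd a (Finset.mem_insert_self _ _))
        refine ⟨C, S.nb_trans hC hB, fun b hb => ?_⟩
        rcases Finset.mem_insert.1 hb with rfl | hb'
        · exact hQC
        · exact hmono n B C b (hd b hb) (hQ b hb') hC
    obtain ⟨B, hB, hQ⟩ := key (S.depth_finite A n).toFinset (by simp)
    exact ⟨B, hB, fun a ha => hQ a (by simpa using ha)⟩
  choose g hg1 hg2 using hall
  let sq : ℕ → R := fun n => Nat.rec A (fun n X => if n < n0 then X else g n X) n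
  have hs : ∀ n, sq (n + 1) = if n < n0 then sq n else g n (sq n) := fun _ => rfl
  have hsn : ∀ n, sq (n + 1) ∈ S.nb n (sq n) := by
    intro n
    rw [hs]
    split_ifs
    · exact S.self_nb _ _
    · exact hg1 _ _
  have h0 : ∀ n ≤ n0, sq n = A := by
    intro n
    induction n with
    | zero => exact fun _ => rfl
    | succ n ih =>
      intro hn
      rw [hs, if_pos (by omega), ih (by omega)]
  obtain ⟨B, hB1, hB2⟩ := S.fusion_limit sq hsn
  refine ⟨B, ⟨?_, ?_⟩, fun n hn a ha => ?_⟩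
  · have := hB2 n0
    rwa [h0 n0 le_rfl] at this
  · rw [hB1, h0 n0 le_rfl]
  · have hd : S.IsDepth (sq n) a n := S.depth_congr (hB1 n) ha
    have hq := hg2 n (sq n) a hd
    have he : sq (n + 1) = g n (sq n) := by rw [hs, if_neg (by omega)]
    rw [← he] at hq
    refine hmono n (sq (n + 1)) B a (S.depth_congr (hsn n).2.symm hd) hq ⟨hB2 (n + 1), ?_⟩
    rw [hB1, (hsn n).2]

end TopRamsey

end Pool.Agent.Q203.TRS
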