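import Mathlib

set_option autoImplicit false

/-!
# Measurable 3-colourings for a bijection, and the reduction of increasing unions of finite
equivalence relations to `E_0`
-/

namespace Pool.Agent.Q203.TRS

open Set MeasureTheory

theorem exists_pick (a b : Fin 3) : ∃ c : Fin 3, c ≠ a ∧ c ≠ b := by
  revert a b
  decide

/-- A Borel bijection has a Borel 3-colouring. -/
theorem color3 {X : Type} [MeasurableSpace X] [StandardBorelSpace X] (g g' : X → X)
    (hg : Measurable g) (hg' : Measurable g') (h1 : ∀ x, g' (g x) = x) :
    ∃ c : X → Fin 3, Measurable c ∧ ∀ x, g x ≠ x → c (g x) ≠ c x := by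
  classical
  choose pick hp1 hp2 using exists_pick
  obtain ⟨φ, hφ, hφi⟩ := MeasurableSpace.measurable_injection_nat_bool_of_countablySeparated X
  -- label
  have hex : ∀ x, ∃ n, φ (g x) n ≠ φ x n ∨ g x = x := by
    intro x
    by_cases h : g x = x
    · exact ⟨0, Or.inr h⟩
    · have : φ (g x) ≠ φ x := fun h' => h (hφi h')
      obtain ⟨n, hn⟩ := Function.ne_iff.1 this
      exact ⟨n, Or.inl hn⟩
  have hφm : ∀ n, Measurable fun x => φ x n := fun n => (measurable_pi_apply n).comp hφ
  have hφgm : ∀ n, Measurable fun x => φ (g x) n := fun n => (hφm n).comp hg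
  have hms : ∀ n, MeasurableSet {x | φ (g x) n ≠ φ x n ∨ g x = x} := by
    intro n
    exact ((measurableSet_eq_fun (hφgm n) (hφm n)).compl).union
      (measurableSet_eq_fun hg measurable_id)
  let i : X → ℕ := fun x => Nat.find (hex x)
  have him : Measurable i := measurable_find _ hms
  let l : X → ℕ := fun x => 2 * i x + (if φ x (i x) then 1 else 0)
  have hlm : Measurable l := by
    have h2 : Measurable fun x => φ x (i x) := by
      have : Measurable fun p : X × ℕ => φ p.1 p.2 :=
        measurable_from_prod_countable_left fun n => hφm n
      exact this.comp (measurable_id.prodMk him)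
    have h3 : Measurable fun x => (if φ x (i x) = true then 1 else 0 : ℕ) :=
      Measurable.ite (measurableSet_eq_fun h2 measurable_const) measurable_const measurable_const
    exact (him.const_mul 2).add h3
  have hl : ∀ x, g x ≠ x → l (g x) ≠ l x := by
    intro x hx he
    have hi : i (g x) = i x := by
      simp only [l] at he
      split_ifs at he <;> omega
    have hb : φ (g x) (i x) = φ x (i x) := by
      simp only [l, hi] at he
      cases h1 : φ (g x) (i x) <;> cases h2 : φ x (i x) <;> simp [h1, h2] at he ⊢
    rcases Nat.find_spec (hex x) with h | h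
    · exact h hb
    · exact hx h
  let cc : ℕ → X → Fin 3 := fun n => Nat.rec (fun _ => 0)
    (fun n c x => if l x = n then pick (c (g x)) (c (g' x)) else c x) n
  have hcc : ∀ n x, cc (n + 1) x = if l x = n then pick (cc n (g x)) (cc n (g' x)) else cc n x :=
    fun _ _ => rfl
  have hccm : ∀ n, Measurable (cc n) := by
    intro n
    induction n with
    | zero => exact measurable_const
    | succ n ih =>
      have : Measurable fun x => pick (cc n (g x)) (cc n (g' x)) := by
        have hpm : Measurable fun p : Fin 3 × Fin 3 => pick p.1 p.2 := measurable_of_countable _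
        exact hpm.comp ((ih.comp hg).prodMk (ih.comp hg'))
      exact Measurable.ite (measurableSet_eq_fun hlm measurable_const) this ih
  have hst : ∀ m x, l x < m → cc m x = cc (l x + 1) x := by
    intro m x hm
    induction m, hm using Nat.le_induction with
    | base => rfl
    | succ m hm' ih =>
      rw [hcc m x, if_neg (by omega), ih]
  have hcm : Measurable fun x => cc (l x + 1) x := by
    have : Measurable fun p : X × ℕ => cc p.2 p.1 :=
      measurable_from_prod_countable_left fun n => hccm n
    exact this.comp (measurable_id.prodMk (hlm.add_const 1))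
  refine ⟨fun x => cc (l x + 1) x, hcm, fun x hx => ?_⟩
  have hne := hl x hx
  show cc (l (g x) + 1) (g x) ≠ cc (l x + 1) x
  rcases lt_or_gt_of_ne hne with h | h
  · rw [hcc (l x) x, if_pos rfl, ← hst (l x) (g x) h]
    exact (hp1 _ _).symm
  · rw [hcc (l (g x)) (g x), if_pos rfl, h1, ← hst (l (g x)) x h]
    exact hp2 _ _

end Pool.Agent.Q203.TRS
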