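import Pool.Agent.Q203.TRS.Basic

set_option autoImplicit false

/-!
# The abstract Ellentuck theorem for Borel sets
-/

namespace Pool.Agent.Q203.TRS

open Set Topology Filter MeasureTheory

namespace TopRamsey

variable {R AR : Type} (S : TopRamsey R AR)

/-- The Ellentuck topology, generated by the cubes. -/
@[reducible] def ellentuck : TopologicalSpace R :=
  TopologicalSpace.generateFrom {U | ∃ (a : AR) (B : R), U = S.cube a B}

/-- The Polish topology: the one inherited from `AR ^ ℕ`, with `AR` discrete. -/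
@[reducible] def polish : TopologicalSpace R :=
  TopologicalSpace.induced (fun x n => S.r n x)
    (@Pi.topologicalSpace ℕ (fun _ => AR) (fun _ => ⊥))

/-- The Borel sets of the Polish topology. -/
@[reducible] def bor : MeasurableSpace R := @borel R S.polish

theorem cube_open (a : AR) (B : R) : IsOpen[S.ellentuck] (S.cube a B) :=
  TopologicalSpace.isOpen_generateFrom_of_mem ⟨a, B, rfl⟩

theorem cube_sub {x : R} {m m' : ℕ} (h : m ≤ m') : S.cube (S.r m' x) x ⊆ S.cube (S.r m x) x := by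
  rintro y ⟨h1, k, h2⟩
  have := (S.a1c y x k m' h2).1
  subst this
  exact ⟨h1, m, S.r_mono h2 h⟩

theorem exists_cube_sub {U : Set R} (hU : IsOpen[S.ellentuck] U) {x : R} (hx : x ∈ U) :
    ∃ m, S.cube (S.r m x) x ⊆ U := by
  induction hU with
  | basic s hs =>
    obtain ⟨a, B, rfl⟩ := hs
    obtain ⟨h1, k, rfl⟩ := hx
    exact ⟨k, S.cube_mono h1⟩
  | univ => exact ⟨0, subset_univ _⟩
  | inter s t _ _ ihs iht =>
    obtain ⟨m, hm⟩ := ihs hx.1
    obtain ⟨m', hm'⟩ := iht hx.2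
    exact ⟨max m m', subset_inter ((S.cube_sub (le_max_left _ _)).trans hm)
      ((S.cube_sub (le_max_right _ _)).trans hm')⟩
  | sUnion K _ ih =>
    obtain ⟨s, hs, hxs⟩ := hx
    obtain ⟨m, hm⟩ := ih s hs hxs
    exact ⟨m, hm.trans (subset_sUnion_of_mem hs)⟩

/-- `A` rejects `a` (with respect to `X`). -/
def Rej (X : Set R) (A : R) (a : AR) : Prop :=
  ∀ n, S.IsDepth A a n → ∀ B ∈ S.nb n A, ¬ S.cube a B ⊆ X

theorem rej_mono {X : Set R} {A B : R} {a : AR} (h : S.Rej X A a) (hBA : S.le B A)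
    (hne : (S.cube a B).Nonempty) : S.Rej X B a := by
  intro n' hn' C hC hCX
  have hCA : S.le C A := S.le_trans' hC.1 hBA
  have hne' := S.cube_nonempty hn' hC
  obtain ⟨n, hn⟩ := S.exists_depth' (hne'.mono (S.cube_mono hCA))
  obtain ⟨A', h1, _, h3⟩ := S.amalg hCA hne' hn
  exact h n hn A' h1 (h3.trans hCX)

theorem rej_self {X : Set R} {A : R} {a : AR} (h : S.Rej X A a) (hne : (S.cube a A).Nonempty) :
    ¬ S.cube a A ⊆ X := by
  obtain ⟨n, hn⟩ := S.exists_depth' hne
  exact h n hn A (S.self_nb n A)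

theorem decide_all (X : Set R) (A : R) (n0 : ℕ) : ∃ B ∈ S.nb n0 A, ∀ n ≥ n0, ∀ a,
    S.IsDepth B a n → (S.cube a B ⊆ X ∨ S.Rej X B a) := by
  refine S.fusion (fun _ B a => S.cube a B ⊆ X ∨ S.Rej X B a) ?_ ?_ A n0
  · intro n A B a hd h hB
    rcases h with h | h
    · exact Or.inl ((S.cube_mono hB.1).trans h)
    · exact Or.inr (S.rej_mono h hB.1 (S.cube_nonempty hd hB))
  · intro n A a hd
    by_cases h : ∃ B ∈ S.nb n A, S.cube a B ⊆ X
    · obtain ⟨B, hB, h⟩ := h
      exact ⟨B, hB, Or.inl h⟩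
    · push Not at h
      refine ⟨A, S.self_nb n A, Or.inr fun m hm B hB => ?_⟩
      have := S.depth_unique hd hm
      subst this
      exact h B hB

theorem reject_all (X : Set R) (A : R) (n0 : ℕ) : ∃ B ∈ S.nb n0 A, ∀ n ≥ n0, ∀ a,
    S.IsDepth B a n → (S.cube a B ⊆ X ∨ (S.Rej X B a ∧ ∀ Y ∈ S.cube a B, ∀ k, S.r k Y = a →
      S.Rej X B (S.r (k + 1) Y))) := by
  refine S.fusion (fun _ B a => S.cube a B ⊆ X ∨ (S.Rej X B a ∧ ∀ Y ∈ S.cube a B, ∀ k,
    S.r k Y = a → S.Rej X B (S.r (k + 1) Y))) ?_ ?_ A n0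
  · intro n A B a hd h hB
    rcases h with h | ⟨h, h'⟩
    · exact Or.inl ((S.cube_mono hB.1).trans h)
    · refine Or.inr ⟨S.rej_mono h hB.1 (S.cube_nonempty hd hB), fun Y hY k hk => ?_⟩
      exact S.rej_mono (h' Y (S.cube_mono hB.1 hY) k hk) hB.1 ⟨Y, hY.1, k + 1, rfl⟩
  · intro n A a hd
    by_cases h : ∃ B ∈ S.nb n A, S.cube a B ⊆ X
    · obtain ⟨B, hB, h⟩ := h
      exact ⟨B, hB, Or.inl h⟩
    · push Not at h
      obtain ⟨A1, hA1, hdec⟩ := S.decide_all X A n
      have hd1 : S.IsDepth A1 a n := S.depth_congr hA1.2.symm hd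
      obtain ⟨Z, hZ, k, hk⟩ := S.cube_nonempty hd1 (S.self_nb n A1)
      subst hk
      obtain ⟨B, hB, hO⟩ := S.a4 Z k A1 n hd1 {b | S.cube b A1 ⊆ X}
      have hBn : B ∈ S.nb n A1 := hB
      have hdB : S.IsDepth B (S.r k Z) n := S.depth_congr hBn.2.symm hd1
      refine ⟨B, S.nb_trans hBn hA1, Or.inr ⟨?_, ?_⟩⟩
      · intro m hm C hC
        have := S.depth_unique hdB hm
        subst this
        exact h C (S.nb_trans (S.nb_trans hC hBn) hA1)
      · intro Y hY k' hk'
        have := (S.a1c Y Z k' k hk').1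
        subst this
        rcases hO with hO | hO
        · exfalso
          apply h B (S.nb_trans hBn hA1)
          rintro W ⟨hW1, k'', hk''⟩
          have := (S.a1c W Z k'' k' hk'').1
          subst this
          exact hO W hW1 hk'' ⟨S.le_trans' hW1 hB.1, k'' + 1, rfl⟩
        · have h1 := hO Y hY.1 hk'
          have hYA : S.le Y A1 := S.le_trans' hY.1 hB.1
          obtain ⟨m, hm⟩ := S.exists_depth hYA (k' + 1)
          have hnm : n ≤ m := by
            refine S.depth_mono (Nat.le_succ k') ?_ hm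
            rw [hk']
            exact hd1
          rcases hdec m hnm _ hm with h2 | h2
          · exact absurd h2 h1
          · exact S.rej_mono h2 hB.1 ⟨Y, hY.1, k' + 1, rfl⟩

/-- Ellentuck open sets are (strongly) Ramsey. -/
theorem open_ramsey {X : Set R} (hX : IsOpen[S.ellentuck] X) {A : R} {a : AR} {n : ℕ}
    (hd : S.IsDepth A a n) : ∃ B ∈ S.nb n A, S.cube a B ⊆ X ∨ Disjoint (S.cube a B) X := by
  obtain ⟨B, hB, hQ⟩ := S.reject_all X A n
  refine ⟨B, hB, ?_⟩
  have hdB : S.IsDepth B a n := S.depth_congr hB.2.symm hd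
  by_cases hacc : S.cube a B ⊆ X
  · exact Or.inl hacc
  right
  rw [Set.disjoint_left]
  intro Z hZ hZX
  obtain ⟨hZB, k, hk⟩ := hZ
  subst hk
  have hrej : ∀ m, S.Rej X B (S.r (k + m) Z) := by
    intro m
    induction m with
    | zero =>
      rcases hQ n le_rfl _ hdB with h | h
      · exact absurd h hacc
      · exact h.1
    | succ m ih =>
      obtain ⟨j, hj⟩ := S.exists_depth hZB (k + m)
      have hnj : n ≤ j := S.depth_mono (Nat.le_add_right k m) hdB hj
      rcases hQ j hnj _ hj with h | h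
      · exact absurd h (S.rej_self ih ⟨Z, hZB, _, rfl⟩)
      · exact h.2 Z ⟨hZB, _, rfl⟩ (k + m) rfl
  obtain ⟨m, hm⟩ := S.exists_cube_sub hX hZX
  have hm' : S.cube (S.r (k + m) Z) Z ⊆ X := (S.cube_sub (Nat.le_add_left m k)).trans hm
  obtain ⟨j, hj⟩ := S.exists_depth hZB (k + m)
  obtain ⟨C, hC, _, hCsub⟩ := S.amalg hZB ⟨Z, S.self_cube _ _⟩ hj
  exact hrej m j hj C hC (hCsub.trans hm')

theorem dense_ramsey {U : Set R} (hU : IsOpen[S.ellentuck] U) (hD : @Dense R S.ellentuck U)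
    {A : R} {a : AR} {n : ℕ} (hd : S.IsDepth A a n) : ∃ B ∈ S.nb n A, S.cube a B ⊆ U := by
  obtain ⟨B, hB, h | h⟩ := S.open_ramsey hU hd
  · exact ⟨B, hB, h⟩
  · exfalso
    obtain ⟨x, hx1, hx2⟩ := (@Dense.inter_open_nonempty R S.ellentuck U hD (S.cube a B)
      (S.cube_open a B) (S.cube_nonempty hd hB))
    exact Set.disjoint_left.1 h hx1 hx2

/-- Complements of Ellentuck meager sets contain cubes. -/
theorem residual_ramsey {G : Set R} (hG : G ∈ @residual R S.ellentuck) {A : R} {a : AR} {n : ℕ}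
    (hd : S.IsDepth A a n) : ∃ B ∈ S.nb n A, S.cube a B ⊆ G := by
  let _ := S.ellentuck
  obtain ⟨K, hK1, hK2, hK3, hK4⟩ := mem_residual_iff.1 hG
  obtain ⟨U, hU⟩ : ∃ U : ℕ → Set R, (∀ i, IsOpen (U i)) ∧ (∀ i, Dense (U i)) ∧
      (⋂ i, U i) ⊆ G := by
    rcases K.eq_empty_or_nonempty with rfl | hne
    · refine ⟨fun _ => univ, fun _ => isOpen_univ, fun _ => dense_univ, ?_⟩
      simpa using hK4
    · obtain ⟨f, hf⟩ := hK3.exists_eq_range hne
      refine ⟨f, fun i => hK1 _ (hf ▸ mem_range_self i), fun i => hK2 _ (hf ▸ mem_range_self i), ?_⟩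
      rw [hf, sInter_range] at hK4
      exact hK4
  obtain ⟨hU1, hU2, hU3⟩ := hU
  let V : ℕ → Set R := fun m => ⋂ i ∈ Set.Iic m, U i
  have hV1 : ∀ m, IsOpen (V m) := fun m => (Set.finite_Iic m).isOpen_biInter fun i _ => hU1 i
  have hV2 : ∀ m, Dense (V m) := by
    intro m
    induction m with
    | zero =>
      have : V 0 = U 0 := by
        ext x
        simp [V]
      rw [this]
      exact hU2 0
    | succ m ih =>
      have : V (m + 1) = V m ∩ U (m + 1) := by
        ext x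
        simp only [V, mem_iInter, mem_inter_iff, mem_Iic]
        constructor
        · intro h
          exact ⟨fun i hi => h i (by omega), h _ le_rfl⟩
        · rintro ⟨h1, h2⟩ i hi
          rcases Nat.lt_or_ge i (m + 1) with h | h
          · exact h1 i (by omega)
          · have : i = m + 1 := by omega
            rw [this]
            exact h2
      rw [this]
      exact ih.inter_of_isOpen_left (hU2 _) (hV1 m)
  obtain ⟨B, hB, hQ⟩ := S.fusion (fun m B b => S.cube b B ⊆ V m)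
    (fun m A B b _ h hB => (S.cube_mono hB.1).trans h)
    (fun m A b hdb => S.dense_ramsey (hV1 m) (hV2 m) hdb) A n
  refine ⟨B, hB, fun x hx => hU3 (mem_iInter.2 fun i => ?_)⟩
  obtain ⟨hxB, _⟩ := hx
  obtain ⟨m, hm, k, hk⟩ := S.depth_large hxB (max n i)
  have h1 : x ∈ V m := hQ m (le_trans (le_max_left _ _) hm) _ hk ⟨hxB, k, rfl⟩
  simp only [V, mem_iInter] at h1
  exact h1 i (mem_Iic.2 (le_trans (le_max_right _ _) hm))

theorem not_meagre_cube {A : R} {a : AR} (h : (S.cube a A).Nonempty) :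
    ¬ @IsMeagre R S.ellentuck (S.cube a A) := by
  intro hm
  obtain ⟨n, hn⟩ := S.exists_depth' h
  obtain ⟨B, hB, hsub⟩ := S.residual_ramsey hm hn
  obtain ⟨x, hx⟩ := S.cube_nonempty hn hB
  exact hsub hx (S.cube_mono hB.1 hx)

theorem ellentuck_le : S.ellentuck ≤ S.polish := by
  unfold polish
  rw [← continuous_iff_le_induced]
  let _ := S.ellentuck
  letI : TopologicalSpace AR := ⊥
  haveI : DiscreteTopology AR := ⟨rfl⟩
  refine continuous_pi fun n => ?_
  refine continuous_discrete_rng.2 fun b => ?_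
  rw [isOpen_iff_forall_mem_open]
  intro x hx
  refine ⟨S.cube b x, ?_, S.cube_open _ _, ⟨S.le_refl' x, n, hx⟩⟩
  rintro y ⟨_, k, hk⟩
  have hx' : S.r n x = b := hx
  have := (S.a1c y x k n (hk.trans hx'.symm)).1
  subst this
  exact hk

/-- Borel sets are (strongly) Ramsey. -/
theorem borel_ramsey {X : Set R} (hX : MeasurableSet[S.bor] X) {A : R} {a : AR} {n : ℕ}
    (hd : S.IsDepth A a n) : ∃ B ∈ S.nb n A, S.cube a B ⊆ X ∨ Disjoint (S.cube a B) X := by
  have h1 : MeasurableSet[@borel R S.ellentuck] X := borel_anti S.ellentuck_le X hX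
  let _ := S.ellentuck
  letI : MeasurableSpace R := borel R
  haveI : BorelSpace R := ⟨rfl⟩
  obtain ⟨U, hU, he⟩ := MeasurableSet.residualEq_isOpen (α := R) h1
  have hG : {x | x ∈ X ↔ x ∈ U} ∈ residual R := by
    filter_upwards [he] with x hx
    exact iff_of_eq hx
  obtain ⟨B1, hB1, hs⟩ := S.residual_ramsey hG hd
  obtain ⟨B, hB, hB'⟩ := S.open_ramsey hU (S.depth_congr hB1.2.symm hd)
  refine ⟨B, S.nb_trans hB hB1, ?_⟩
  have hs' : S.cube a B ⊆ {x | x ∈ X ↔ x ∈ U} := (S.cube_mono hB.1).trans hs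
  rcases hB' with h | h
  · exact Or.inl fun x hx => (hs' hx).2 (h hx)
  · refine Or.inr (Set.disjoint_left.2 fun x hx hxX => ?_)
    exact Set.disjoint_left.1 h hx ((hs' hx).1 hxX)

/-- A Borel set which is not Ellentuck meager contains a cube. -/
theorem exists_cube_of_not_meagre {X : Set R} (hX : MeasurableSet[S.bor] X)
    (hm : ¬ @IsMeagre R S.ellentuck X) : ∃ (a : AR) (A : R), (S.cube a A).Nonempty ∧
      S.cube a A ⊆ X := by
  have h1 : MeasurableSet[@borel R S.ellentuck] X := borel_anti S.ellentuck_le X hX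
  let _ := S.ellentuck
  letI : MeasurableSpace R := borel R
  haveI : BorelSpace R := ⟨rfl⟩
  obtain ⟨U, hU, he⟩ := MeasurableSet.residualEq_isOpen (α := R) h1
  have hG : {x | x ∈ X ↔ x ∈ U} ∈ residual R := by
    filter_upwards [he] with x hx
    exact iff_of_eq hx
  have hUne : U.Nonempty := by
    by_contra hcon
    rw [Set.not_nonempty_iff_eq_empty] at hcon
    subst hcon
    apply hm
    show Xᶜ ∈ residual R
    filter_upwards [hG] with x hx hxX
    exact hx.1 hxX
  obtain ⟨x, hx⟩ := hUne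
  obtain ⟨m, hm'⟩ := S.exists_cube_sub hU hx
  obtain ⟨n, hn⟩ := S.exists_depth (S.le_refl' x) m
  obtain ⟨B, hB, hs⟩ := S.residual_ramsey hG hn
  refine ⟨S.r m x, B, S.cube_nonempty hn hB, fun y hy => (hs hy).2 (hm' (S.cube_mono hB.1 hy))⟩

end TopRamsey

end Pool.Agent.Q203.TRS
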