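import Mathlib
import Pool.Agent.H139R3.FM

set_option autoImplicit false

/-!
# Increasing unions of finite Borel equivalence relations are Borel reducible to `E_0`
-/

namespace Pool.Agent.Q203.TRS

open Set MeasureTheory

/-- Borel reducibility between relations. -/
def BorelRed {X Y : Type} [MeasurableSpace X] [MeasurableSpace Y] (E : X → X → Prop)
    (F : Y → Y → Prop) : Prop :=
  ∃ f : X → Y, Measurable f ∧ ∀ x x', E x x' ↔ F (f x) (f x')

/-- Eventual equality of infinite binary sequences. -/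
def E0 (x y : ℕ → Bool) : Prop := ∃ N, ∀ n ≥ N, x n = y n

theorem red_E0 {X : Type} [MeasurableSpace X] [StandardBorelSpace X] (F : ℕ → X → X → Prop)
    (hF : ∀ n, Equivalence (F n)) (hFm : ∀ n, MeasurableSet {p : X × X | F n p.1 p.2})
    (hfin : ∀ n x, {y | F n x y}.Finite) (hmono : ∀ n x y, F n x y → F (n + 1) x y) :
    BorelRed (fun x y => ∃ n, F n x y) E0 := by
  classical
  have hmono' : ∀ n m, n ≤ m → ∀ x y, F n x y → F m x y := by
    intro n m h
    induction m, h using Nat.le_induction with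
    | base => exact fun _ _ h => h
    | succ m _ ih => exact fun x y h => hmono m x y (ih x y h)
  -- Feldman-Moore
  obtain ⟨s, hsm, _, hs⟩ := H139R3.FM.feldman_moore (fun x y : X => ∃ n, F n x y)
    ⟨fun x => ⟨0, (hF 0).refl x⟩, fun ⟨n, h⟩ => ⟨n, (hF n).symm h⟩, fun ⟨n, h⟩ ⟨m, h'⟩ =>
      ⟨max n m, (hF _).trans (hmono' _ _ (le_max_left _ _) _ _ h)
        (hmono' _ _ (le_max_right _ _) _ _ h')⟩⟩
    (by
      have : {p : X × X | ∃ n, F n p.1 p.2} = ⋃ n, {p : X × X | F n p.1 p.2} := by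
        ext p
        simp
      rw [this]
      exact MeasurableSet.iUnion hFm)
    (fun y => by
      have : {y' | ∃ n, F n y y'} = ⋃ n, {y' | F n y y'} := by
        ext p
        simp
      rw [this]
      exact Set.countable_iUnion fun n => (hfin n y).countable)
  obtain ⟨e, he⟩ := exists_measurableEmbedding_real X
  obtain ⟨φ, hφ, hφi⟩ := MeasurableSpace.measurable_injection_nat_bool_of_countablySeparated X
  have hφm : ∀ n, Measurable fun x => φ x n := fun n => (measurable_pi_apply n).comp hφ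
  -- selectors
  have hsel : ∀ n x, ∃ i, F n x (s i x) ∧ ∀ j, F n x (s j x) → e (s i x) ≤ e (s j x) := by
    intro n x
    obtain ⟨y, hy, hmin⟩ := Set.exists_min_image {y | F n x y} e (hfin n x) ⟨x, (hF n).refl x⟩
    obtain ⟨i, hi⟩ := (hs x y).1 ⟨n, hy⟩
    refine ⟨i, by rw [hi]; exact hy, fun j hj => ?_⟩
    rw [hi]
    exact hmin _ hj
  have hFs : ∀ n (f : X → X), Measurable f → MeasurableSet {x | F n x (f x)} := fun n f hf =>
    (measurable_id.prodMk hf) (hFm n)
  have hselm : ∀ n i, MeasurableSet {x | F n x (s i x) ∧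
      ∀ j, F n x (s j x) → e (s i x) ≤ e (s j x)} := by
    intro n i
    have h2 : MeasurableSet {x | ∀ j, F n x (s j x) → e (s i x) ≤ e (s j x)} := by
      have : {x | ∀ j, F n x (s j x) → e (s i x) ≤ e (s j x)} =
          ⋂ j, ({x | F n x (s j x)}ᶜ ∪ {x | e (s i x) ≤ e (s j x)}) := by
        ext x
        simp [imp_iff_not_or]
      rw [this]
      exact MeasurableSet.iInter fun j => (hFs n _ (hsm j)).compl.union
        (measurableSet_le (he.measurable.comp (hsm i)) (he.measurable.comp (hsm j)))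
    exact (hFs n _ (hsm i)).inter h2
  let b : ℕ → X → X := fun n x => s (Nat.find (hsel n x)) x
  have hbm : ∀ n, Measurable (b n) := by
    intro n
    have h1 : Measurable fun x => Nat.find (hsel n x) := measurable_find _ (hselm n)
    have h2 : Measurable fun p : X × ℕ => s p.2 p.1 :=
      measurable_from_prod_countable_left fun n => hsm n
    exact h2.comp (measurable_id.prodMk h1)
  have hb1 : ∀ n x, F n x (b n x) := fun n x => (Nat.find_spec (hsel n x)).1
  have hb2 : ∀ n x y, F n x y → e (b n x) ≤ e y := by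
    intro n x y hxy
    obtain ⟨j, hj⟩ := (hs x y).1 ⟨n, hxy⟩
    have := (Nat.find_spec (hsel n x)).2 j (by rw [hj]; exact hxy)
    rwa [hj] at this
  have hb3 : ∀ n x y, F n x y → b n x = b n y := by
    intro n x y hxy
    apply he.injective
    apply le_antisymm
    · exact hb2 n x _ ((hF n).trans hxy (hb1 n y))
    · exact hb2 n y _ ((hF n).trans ((hF n).symm hxy) (hb1 n x))
  -- index
  let ind : X → X → ℕ → Prop := fun y z i => s i y = z ∧ ∀ i' < i, s i' y ≠ z
  have hind : ∀ n y z, F n y z → ∃ i, ind y z i := by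
    intro n y z h
    have h' := (hs y z).1 ⟨n, h⟩
    exact ⟨Nat.find h', Nat.find_spec h', fun i' hi' => Nat.find_min h' hi'⟩
  have hindu : ∀ y z i i', ind y z i → ind y z i' → i = i' := by
    intro y z i i' h1 h2
    rcases lt_trichotomy i i' with h | h | h
    · exact absurd h1.1 (h2.2 i h)
    · exact h
    · exact absurd h2.1 (h1.2 i' h)
  have hindm : ∀ (f g : X → X) i, Measurable f → Measurable g →
      MeasurableSet {x | ind (f x) (g x) i} := by
    intro f g i hf hg
    have h2 : MeasurableSet {x | ∀ i' < i, s i' (f x) ≠ g x} := by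
      have : {x | ∀ i' < i, s i' (f x) ≠ g x} = ⋂ i' ∈ Set.Iio i, {x | s i' (f x) = g x}ᶜ := by
        ext x
        simp
      rw [this]
      exact MeasurableSet.biInter (Set.to_countable _) fun i' _ =>
        (measurableSet_eq_fun ((hsm i').comp hf) hg).compl
    exact (measurableSet_eq_fun ((hsm i).comp hf) hg).inter h2
  -- the bits, repeated infinitely often
  let ψ : X → ℕ → Bool := fun x n => φ x (Nat.unpair n).1
  have hψm : ∀ n, Measurable fun x => ψ x n := fun n => hφm _
  have hψ : ∀ x y N, (∀ n ≥ N, ψ x n = ψ y n) → x = y := by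
    intro x y N h
    apply hφi
    funext k
    have := h (Nat.pair k N) (Nat.right_le_pair k N)
    simpa [ψ] using this
  -- the set D(x)
  let D : X → ℕ × ℕ × ℕ × Bool → Prop := fun x w =>
    ∃ z, F w.1 x z ∧ ind (b w.1 x) z w.2.1 ∧ ind (b (w.1 + 1) x) z w.2.2.1 ∧ ψ z w.1 = w.2.2.2
  have hDm : ∀ w, MeasurableSet {x | D x w} := by
    intro w
    have : {x | D x w} = {x | F w.1 x (s w.2.1 (b w.1 x))} ∩
        {x | ind (b w.1 x) (s w.2.1 (b w.1 x)) w.2.1} ∩
        {x | ind (b (w.1 + 1) x) (s w.2.1 (b w.1 x)) w.2.2.1} ∩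
        {x | ψ (s w.2.1 (b w.1 x)) w.1 = w.2.2.2} := by
      ext x
      constructor
      · rintro ⟨z, h1, h2, h3, h4⟩
        have hz : s w.2.1 (b w.1 x) = z := h2.1
        subst hz
        exact ⟨⟨⟨h1, h2⟩, h3⟩, h4⟩
      · rintro ⟨⟨⟨h1, h2⟩, h3⟩, h4⟩
        exact ⟨_, h1, h2, h3, h4⟩
    rw [this]
    have hm1 : Measurable fun x => s w.2.1 (b w.1 x) := (hsm _).comp (hbm _)
    exact (((hFs _ _ hm1).inter (hindm _ _ _ (hbm _) hm1)).inter
      (hindm _ _ _ (hbm _) hm1)).inter
      (measurableSet_eq_fun ((hψm w.1).comp hm1) measurable_const)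
  obtain ⟨en⟩ : Nonempty (ℕ × ℕ × ℕ × Bool ≃ ℕ) := nonempty_equiv_of_countable
  let Φ : X → ℕ → Bool := fun x n => decide (D x (en.symm n))
  have hΦm : Measurable Φ := by
    refine measurable_pi_iff.2 fun n => ?_
    apply measurable_to_bool
    have : (fun x => Φ x n) ⁻¹' {true} = {x | D x (en.symm n)} := by
      ext x
      simp [Φ]
    rw [this]
    exact hDm _
  refine ⟨Φ, hΦm, fun x y => ⟨?_, ?_⟩⟩
  · rintro ⟨n0, hn0⟩
    -- D(x) and D(y) agree at levels `≥ n0`
    have hag : ∀ x y, F n0 x y → ∀ w : ℕ × ℕ × ℕ × Bool, n0 ≤ w.1 → D x w → D y w := by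
      rintro x y hxy w hw ⟨z, h1, h2, h3, h4⟩
      have hx1 := hmono' _ _ hw _ _ hxy
      have hx2 := hmono _ _ _ hx1
      refine ⟨z, (hF _).trans ((hF _).symm hx1) h1, ?_, ?_, h4⟩
      · rw [← hb3 _ _ _ hx1]; exact h2
      · rw [← hb3 _ _ _ hx2]; exact h3
    -- finitely many elements at each level
    have hfD : ∀ x n, {w : ℕ × ℕ × ℕ × Bool | w.1 = n ∧ D x w}.Finite := by
      intro x n
      have : {w : ℕ × ℕ × ℕ × Bool | w.1 = n ∧ D x w} ⊆
          ⋃ z ∈ {z | F n x z}, {w | w.1 = n ∧ ind (b n x) z w.2.1 ∧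
            ind (b (n + 1) x) z w.2.2.1} := by
        rintro w ⟨rfl, z, h1, h2, h3, h4⟩
        exact Set.mem_biUnion (show z ∈ {z | F w.1 x z} from h1) ⟨rfl, h2, h3⟩
      refine Set.Finite.subset ((hfin n x).biUnion fun z hz => ?_) this
      by_cases hne : {w : ℕ × ℕ × ℕ × Bool | w.1 = n ∧ ind (b n x) z w.2.1 ∧
            ind (b (n + 1) x) z w.2.2.1}.Nonempty
      · obtain ⟨w0, hw0⟩ := hne
        refine Set.Finite.subset (Set.toFinite {(n, w0.2.1, w0.2.2.1, true),
          (n, w0.2.1, w0.2.2.1, false)}) ?_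
        rintro ⟨w1, w2, w3, w4⟩ ⟨h1, h2, h3⟩
        have e2 := hindu _ _ _ _ h2 hw0.2.1
        have e3 := hindu _ _ _ _ h3 hw0.2.2
        simp only at h1 e2 e3
        subst h1 e2 e3
        cases w4 <;> simp
      · rw [Set.not_nonempty_iff_eq_empty.1 hne]
        exact Set.finite_empty
    have hbad : {w : ℕ × ℕ × ℕ × Bool | ¬ (D x w ↔ D y w)}.Finite := by
      refine Set.Finite.subset (((Set.finite_Iio n0).biUnion fun n _ => hfD x n).union
        ((Set.finite_Iio n0).biUnion fun n _ => hfD y n)) ?_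
      intro w hw
      have hlt : w.1 < n0 := by
        by_contra hcon
        push Not at hcon
        exact hw ⟨hag x y hn0 w hcon, hag y x ((hF _).symm hn0) w hcon⟩
      by_cases hx : D x w
      · left
        exact Set.mem_biUnion (Set.mem_Iio.2 hlt) ⟨rfl, hx⟩
      · right
        have hy : D y w := by
          by_contra hy
          exact hw ⟨fun h => absurd h hx, fun h => absurd h hy⟩
        exact Set.mem_biUnion (Set.mem_Iio.2 hlt) ⟨rfl, hy⟩
    obtain ⟨N, hN⟩ := (hbad.image en).bddAbove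
    refine ⟨N + 1, fun n hn => ?_⟩
    show decide (D x (en.symm n)) = decide (D y (en.symm n))
    have : D x (en.symm n) ↔ D y (en.symm n) := by
      by_contra hcon
      have := hN ⟨en.symm n, hcon, rfl⟩
      rw [Equiv.apply_symm_apply] at this
      omega
    simp [this]
  · rintro ⟨N, hN⟩
    -- D(x) and D(y) agree off a finite set, hence at all large levels
    have hag : ∀ w, N ≤ en w → (D x w ↔ D y w) := by
      intro w hw
      have := hN (en w) hw
      simpa [Φ] using this
    have hfinw : {w | en w < N}.Finite := by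
      refine Set.Finite.preimage (f := en) (s := Set.Iio N) ?_ (Set.finite_Iio N)
      exact en.injective.injOn
    obtain ⟨n0, hn0⟩ := (hfinw.image Prod.fst).bddAbove
    have hag' : ∀ w : ℕ × ℕ × ℕ × Bool, n0 < w.1 → (D x w ↔ D y w) := by
      intro w hw
      apply hag
      by_contra hcon
      push Not at hcon
      have := hn0 ⟨w, hcon, rfl⟩
      omega
    -- follow z = x through the levels
    have hz : ∀ m, n0 + 1 ≤ m → ∃ i, ind (b m x) x i := fun m _ =>
      hind m _ _ ((hF m).symm (hb1 m x))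
    obtain ⟨i0, hi0⟩ := hz (n0 + 1) le_rfl
    obtain ⟨i1, hi1⟩ := hz (n0 + 2) (by omega)
    have hD0 : D x (n0 + 1, i0, i1, ψ x (n0 + 1)) := ⟨x, (hF _).refl x, hi0, hi1, rfl⟩
    obtain ⟨z', hz1, hz2, hz3, hz4⟩ := (hag' _ (by simp)).1 hD0
    simp only at hz1 hz2 hz3 hz4
    have hmain : ∀ k, (∃ i, ind (b (n0 + 1 + k + 1) x) x i ∧ ind (b (n0 + 1 + k + 1) y) z' i) ∧
        ψ z' (n0 + 1 + k) = ψ x (n0 + 1 + k) := by
      intro k
      induction k with
      | zero => exact ⟨⟨i1, hi1, hz3⟩, hz4⟩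
      | succ k ih =>
        obtain ⟨⟨i, hi, hi'⟩, _⟩ := ih
        obtain ⟨i', hi2⟩ := hz (n0 + 1 + (k + 1) + 1) (by omega)
        have hD1 : D x (n0 + 1 + (k + 1), i, i', ψ x (n0 + 1 + (k + 1))) :=
          ⟨x, (hF _).refl x, hi, hi2, rfl⟩
        obtain ⟨z'', h1, h2, h3, h4⟩ := (hag' _ (by simp; omega)).1 hD1
        simp only at h1 h2 h3 h4
        have hzz : z'' = z' := by
          rw [← h2.1, ← hi'.1]
        subst hzz
        exact ⟨⟨i', hi2, h3⟩, h4⟩
    have hxz : x = z' := by
      refine hψ x z' (n0 + 1) fun n hn => ?_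
      obtain ⟨k, rfl⟩ := Nat.exists_eq_add_of_le hn
      exact (hmain k).2.symm
    exact ⟨n0 + 1, by rw [hxz]; exact (hF _).symm hz1⟩

end Pool.Agent.Q203.TRS
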