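import Pool.Agent.Q203.TRS.Ell
import Pool.Agent.Q203.TRS.Abs
import Pool.Agent.Q203.TRS.Col
import Pool.Agent.Q203.TRS.Red

set_option autoImplicit false

/-!
# Every countable Borel equivalence relation on a topological Ramsey space is hyperfinite on a cube
-/

namespace Pool.Agent.Q203.TRS

open Set Topology Filter MeasureTheory Relation

/-! ### Words in countably many involutions -/

section Words

variable {X : Type}

/-- Words of length at most `2 ^ n` in the first `n` involutions. -/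
def Kf (s : ℕ → X → X) : ℕ → Set (X → X)
  | 0 => {id}
  | n + 1 => Set.image2 (fun f g => g ∘ f) (Kf s n) (Kf s n) ∪ {s n}

theorem kf_fin (s : ℕ → X → X) (n : ℕ) : (Kf s n).Finite := by
  induction n with
  | zero => exact Set.finite_singleton _
  | succ n ih => exact (Set.Finite.image2 _ ih ih).union (Set.finite_singleton _)

theorem kf_id (s : ℕ → X → X) (n : ℕ) : id ∈ Kf s n := by
  induction n with
  | zero => rfl
  | succ n ih => exact Or.inl ⟨id, ih, id, ih, rfl⟩

theorem kf_comp (s : ℕ → X → X) {n : ℕ} {f g : X → X} (hf : f ∈ Kf s n) (hg : g ∈ Kf s n) :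
    g ∘ f ∈ Kf s (n + 1) := Or.inl ⟨f, hf, g, hg, rfl⟩

theorem kf_self (s : ℕ → X → X) (n : ℕ) : s n ∈ Kf s (n + 1) := Or.inr rfl

theorem kf_inv (s : ℕ → X → X) (hs : ∀ n x, s n (s n x) = x) (n : ℕ) :
    ∀ f ∈ Kf s n, ∃ f' ∈ Kf s n, (∀ x, f' (f x) = x) := by
  induction n with
  | zero =>
    rintro f rfl
    exact ⟨id, rfl, fun _ => rfl⟩
  | succ n ih =>
    rintro _ (⟨f, hf, g, hg, rfl⟩ | rfl)
    · obtain ⟨f', hf', h1⟩ := ih f hf
      obtain ⟨g', hg', h2⟩ := ih g hg
      refine ⟨f' ∘ g', kf_comp s hg' hf', fun x => ?_⟩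
      simp only [Function.comp_apply, h2, h1]
    · exact ⟨s n, Or.inr rfl, hs n⟩

theorem kf_meas [MeasurableSpace X] (s : ℕ → X → X) (hs : ∀ n, Measurable (s n)) (n : ℕ) :
    ∀ f ∈ Kf s n, Measurable f := by
  induction n with
  | zero =>
    rintro f rfl
    exact measurable_id
  | succ n ih =>
    rintro _ (⟨f, hf, g, hg, rfl⟩ | rfl)
    · exact (ih g hg).comp (ih f hf)
    · exact hs n

theorem kf_rel (s : ℕ → X → X) (E : X → X → Prop) (hE : Equivalence E) (h : ∀ n x, E x (s n x))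
    (n : ℕ) : ∀ f ∈ Kf s n, ∀ x, E x (f x) := by
  induction n with
  | zero =>
    rintro f rfl
    exact fun x => hE.refl x
  | succ n ih =>
    rintro _ (⟨f, hf, g, hg, rfl⟩ | rfl)
    · exact fun x => hE.trans (ih f hf x) (ih g hg (f x))
    · exact h n

/-- `y` is reached from `x`, inside `Y`, by a word in `Kf s n`. -/
def KY (s : ℕ → X → X) (Y : Set X) (n : ℕ) (x y : X) : Prop :=
  x = y ∨ (x ∈ Y ∧ y ∈ Y ∧ ∃ f ∈ Kf s n, f x = y)

theorem ky_refl (s : ℕ → X → X) (Y : Set X) (n : ℕ) (x : X) : KY s Y n x x := Or.inl rfl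

theorem ky_symm (s : ℕ → X → X) (hs : ∀ n x, s n (s n x) = x) (Y : Set X) (n : ℕ) (x y : X)
    (h : KY s Y n x y) : KY s Y n y x := by
  rcases h with rfl | ⟨h1, h2, f, hf, rfl⟩
  · exact Or.inl rfl
  · obtain ⟨f', hf', h3⟩ := kf_inv s hs n f hf
    exact Or.inr ⟨h2, h1, f', hf', h3 x⟩

theorem ky_comp (s : ℕ → X → X) (Y : Set X) (n : ℕ) (x y z : X) (h : KY s Y n x y)
    (h' : KY s Y n y z) : KY s Y (n + 1) x z := by
  have up : ∀ x y, KY s Y n x y → KY s Y (n + 1) x y := by
    rintro x y (rfl | ⟨h1, h2, f, hf, rfl⟩)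
    · exact Or.inl rfl
    · exact Or.inr ⟨h1, h2, id ∘ f, kf_comp s hf (kf_id s n), rfl⟩
  rcases h with rfl | ⟨h1, h2, f, hf, rfl⟩
  · exact up _ _ h'
  · rcases h' with h' | ⟨h3, h4, g, hg, rfl⟩
    · subst h'
      exact up _ _ (Or.inr ⟨h1, h2, f, hf, rfl⟩)
    · exact Or.inr ⟨h1, h4, g ∘ f, kf_comp s hf hg, rfl⟩

theorem ky_fin (s : ℕ → X → X) (Y : Set X) (n : ℕ) (x : X) : {y | KY s Y n x y}.Finite := by
  refine Set.Finite.subset ((Set.finite_singleton x).union ((kf_fin s n).image (fun f => f x))) ?_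
  rintro y (rfl | ⟨_, _, f, hf, rfl⟩)
  · exact Or.inl rfl
  · exact Or.inr ⟨f, hf, rfl⟩

theorem ky_meas [MeasurableSpace X] [StandardBorelSpace X] (s : ℕ → X → X)
    (hs : ∀ n, Measurable (s n)) {Y : Set X} (hY : MeasurableSet Y) (n : ℕ) :
    MeasurableSet {p : X × X | KY s Y n p.1 p.2} := by
  have : {p : X × X | KY s Y n p.1 p.2} = {p : X × X | p.1 = p.2} ∪
      ((Prod.fst ⁻¹' Y ∩ Prod.snd ⁻¹' Y) ∩ ⋃ f ∈ Kf s n, {p : X × X | f p.1 = p.2}) := by
    ext p
    simp only [KY, mem_setOf_eq, mem_union, mem_inter_iff, mem_preimage, mem_iUnion, exists_prop,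
      and_assoc]
  rw [this]
  refine (measurableSet_eq_fun measurable_fst measurable_snd).union
    (((measurable_fst hY).inter (measurable_snd hY)).inter ?_)
  exact MeasurableSet.biUnion (kf_fin s n).countable fun f hf =>
    measurableSet_eq_fun ((kf_meas s hs n f hf).comp measurable_fst) measurable_snd

theorem rtg_meas [MeasurableSpace X] [StandardBorelSpace X] (s : ℕ → X → X)
    (hs : ∀ n, Measurable (s n)) (H : X → X → Prop) (hH : MeasurableSet {p : X × X | H p.1 p.2})
    (hHs : ∀ x y, ReflTransGen H x y → ∃ j, s j x = y) :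
    MeasurableSet {p : X × X | ReflTransGen H p.1 p.2} := by
  let It : ℕ → X → X → Prop := fun l => Nat.rec (fun x y => x = y)
    (fun _ I x y => ∃ z, I x z ∧ H z y) l
  have hIt : ∀ l x y, It (l + 1) x y ↔ ∃ z, It l x z ∧ H z y := fun _ _ _ => Iff.rfl
  have hsub : ∀ l x y, It l x y → ReflTransGen H x y := by
    intro l
    induction l with
    | zero =>
      rintro x y rfl
      exact ReflTransGen.refl
    | succ l ih =>
      rintro x y ⟨z, h1, h2⟩
      exact (ih _ _ h1).tail h2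
  have heq : ∀ x y, ReflTransGen H x y ↔ ∃ l, It l x y := by
    intro x y
    constructor
    · intro h
      induction h with
      | refl => exact ⟨0, rfl⟩
      | tail _ h ih =>
        obtain ⟨l, hl⟩ := ih
        exact ⟨l + 1, _, hl, h⟩
    · rintro ⟨l, hl⟩
      exact hsub l x y hl
  have hm : ∀ l, MeasurableSet {p : X × X | It l p.1 p.2} := by
    intro l
    induction l with
    | zero => exact measurableSet_eq_fun measurable_fst measurable_snd
    | succ l ih =>
      have : {p : X × X | It (l + 1) p.1 p.2} = ⋃ j, ({p : X × X | It l p.1 (s j p.1)} ∩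
          {p : X × X | H (s j p.1) p.2}) := by
        ext p
        simp only [mem_setOf_eq, hIt, mem_iUnion, mem_inter_iff]
        constructor
        · rintro ⟨z, h1, h2⟩
          obtain ⟨j, rfl⟩ := hHs _ _ (hsub _ _ _ h1)
          exact ⟨j, h1, h2⟩
        · rintro ⟨j, h1, h2⟩
          exact ⟨_, h1, h2⟩
      rw [this]
      refine MeasurableSet.iUnion fun j => ?_
      have h1 : Measurable fun p : X × X => (p.1, s j p.1) :=
        measurable_fst.prodMk ((hs j).comp measurable_fst)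
      have h2 : Measurable fun p : X × X => (s j p.1, p.2) :=
        ((hs j).comp measurable_fst).prodMk measurable_snd
      exact (h1 ih).inter (h2 hH)
  have : {p : X × X | ReflTransGen H p.1 p.2} = ⋃ l, {p : X × X | It l p.1 p.2} := by
    ext p
    simp only [mem_setOf_eq, heq, mem_iUnion]
  rw [this]
  exact MeasurableSet.iUnion hm

end Words

namespace TopRamsey

variable {R AR : Type} (S : TopRamsey R AR)

theorem polishSpace [Countable AR] : @PolishSpace R S.polish := by
  let _ : TopologicalSpace AR := ⊥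
  have : DiscreteTopology AR := ⟨rfl⟩
  have : PolishSpace AR := inferInstance
  have hpi : PolishSpace (ℕ → AR) := inferInstance
  let _ := S.polish
  have hemb : IsClosedEmbedding (fun (x : R) (n : ℕ) => S.r n x) := by
    refine ⟨⟨⟨rfl⟩, ?_⟩, ?_⟩
    · intro A B h
      by_contra hne
      obtain ⟨n, hn⟩ := S.a1b A B hne
      exact hn (congrFun h n)
    · have : Set.range (fun (x : R) (n : ℕ) => S.r n x) =
          ⋂ n, {x : ℕ → AR | ∃ A : R, ∀ k ≤ n, S.r k A = x k} := by
        ext x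
        simp only [mem_range, mem_iInter, mem_setOf_eq]
        constructor
        · rintro ⟨A, rfl⟩ n
          exact ⟨A, fun k _ => rfl⟩
        · intro h
          obtain ⟨A, hA⟩ := S.closed x h
          exact ⟨A, funext hA⟩
      rw [this]
      refine isClosed_iInter fun n => ?_
      have h2 : {x : ℕ → AR | ∃ A : R, ∀ k ≤ n, S.r k A = x k} =
          (fun (x : ℕ → AR) (k : Set.Iic n) => x k) ⁻¹'
            {y | ∃ A : R, ∀ k : Set.Iic n, S.r k A = y k} := by
        ext x
        simp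
      rw [h2]
      refine IsClosed.preimage (by fun_prop) (isClosed_discrete _)
  exact hemb.polishSpace

theorem meas_r (n : ℕ) (T : Set AR) : @MeasurableSet R S.bor {x | S.r n x ∈ T} := by
  let _ := S.polish
  let _ : MeasurableSpace R := S.bor
  have : BorelSpace R := ⟨rfl⟩
  let _ : TopologicalSpace AR := ⊥
  have : DiscreteTopology AR := ⟨rfl⟩
  have h1 : Continuous fun x : R => S.r n x :=
    (continuous_apply n).comp (continuous_induced_dom (f := fun (x : R) (n : ℕ) => S.r n x))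
  exact ((isOpen_discrete T).preimage h1).measurableSet

theorem meas_le (B : R) : @MeasurableSet R S.bor {x | S.le x B} := by
  let _ : MeasurableSpace R := S.bor
  have : {x | S.le x B} = ⋂ n, ⋃ m, {x | S.r n x ∈ {a | S.lf a (S.r m B)}} := by
    ext x
    simp only [mem_setOf_eq, S.a2b, mem_iInter, mem_iUnion]
  rw [this]
  exact MeasurableSet.iInter fun n => MeasurableSet.iUnion fun m => S.meas_r n _

/-- number of approximations of depth `n` -/
noncomputable def cd (A : R) (n : ℕ) : ℕ := {a | S.IsDepth A a n}.ncard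

theorem cd_congr {A B : R} {n : ℕ} (h : S.r n A = S.r n B) : S.cd A n = S.cd B n := by
  unfold cd
  congr 1
  ext a
  exact ⟨fun ha => S.depth_congr h ha, fun ha => S.depth_congr h.symm ha⟩

theorem qb_congr {A B : R} {n : ℕ} (h : S.r n A = S.r n B) :
    ∀ j ≤ n, qb (fun m => S.cd A m) j = qb (fun m => S.cd B m) j := by
  intro j
  induction j with
  | zero => exact fun _ => rfl
  | succ j ih =>
    intro hj
    simp only [qb]
    rw [ih (by omega), S.cd_congr (S.r_mono h (by omega : j ≤ n))]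

/-- the sparseness needed at stage `n` -/
noncomputable def kk (A : R) (n : ℕ) : ℕ := max n (qb (fun m => S.cd A m) n) + 2 + S.cd A n

theorem kk_congr {A B : R} {n : ℕ} (h : S.r n A = S.r n B) : S.kk A n = S.kk B n := by
  unfold kk
  rw [S.qb_congr h n le_rfl, S.cd_congr h]

theorem sparse_one [Countable AR] (f f' : R → R) (hf : @Measurable R R S.bor S.bor f)
    (hf' : @Measurable R R S.bor S.bor f') (hff : ∀ x, f' (f x) = x) {A : R} {t : AR} {n : ℕ}
    (hd : S.IsDepth A t n) :
    ∃ B ∈ S.nb n A, ∀ x ∈ S.cube t B, f x ∈ S.cube t B → f x = x := by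
  let _ := S.polish
  let _ : MeasurableSpace R := S.bor
  have : BorelSpace R := ⟨rfl⟩
  have : PolishSpace R := S.polishSpace
  obtain ⟨c, hc, hc'⟩ := color3 f f' hf hf' hff
  have hfix : @MeasurableSet R S.bor {x | f x = x} := measurableSet_eq_fun hf measurable_id
  have hcol : ∀ i : Fin 3, @MeasurableSet R S.bor {x | c x = i} := fun i =>
    measurableSet_eq_fun hc measurable_const
  obtain ⟨B0, hB0, h0⟩ := S.borel_ramsey hfix hd
  rcases h0 with h0 | h0
  · exact ⟨B0, hB0, fun x hx _ => h0 hx⟩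
  have hd0 := S.depth_congr hB0.2.symm hd
  obtain ⟨B1, hB1, h1⟩ := S.borel_ramsey (hcol 0) hd0
  have good : ∀ (B : R) (i : Fin 3), S.le B B0 → S.cube t B ⊆ {x | c x = i} →
      ∀ x ∈ S.cube t B, f x ∈ S.cube t B → f x = x := by
    intro B i hB hi x hx hfx
    by_contra hne
    exact hc' x hne ((hi hfx).trans (hi hx).symm)
  rcases h1 with h1 | h1
  · exact ⟨B1, S.nb_trans hB1 hB0, good B1 0 hB1.1 h1⟩
  have hd1 := S.depth_congr hB1.2.symm hd0
  obtain ⟨B2, hB2, h2⟩ := S.borel_ramsey (hcol 1) hd1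
  have hB20 : S.le B2 B0 := S.le_trans' hB2.1 hB1.1
  rcases h2 with h2 | h2
  · exact ⟨B2, S.nb_trans (S.nb_trans hB2 hB1) hB0, good B2 1 hB20 h2⟩
  · refine ⟨B2, S.nb_trans (S.nb_trans hB2 hB1) hB0, good B2 2 hB20 fun x hx => ?_⟩
    have n1 : c x ≠ 0 := fun h => Set.disjoint_left.1 h1 (S.cube_mono hB2.1 hx) h
    have n2 : c x ≠ 1 := fun h => Set.disjoint_left.1 h2 hx h
    show c x = 2
    generalize c x = y at n1 n2
    revert y
    decide

theorem sparse_fin [Countable AR] (K : Set (R → R)) (hK : K.Finite)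
    (hm : ∀ f ∈ K, @Measurable R R S.bor S.bor f) (hi : ∀ f ∈ K, ∃ f' ∈ K, ∀ x, f' (f x) = x)
    {A : R} {t : AR} {n : ℕ} (hd : S.IsDepth A t n) :
    ∃ B ∈ S.nb n A, ∀ f ∈ K, ∀ x ∈ S.cube t B, f x ∈ S.cube t B → f x = x := by
  classical
  have key : ∀ F : Finset (R → R), (∀ f ∈ F, f ∈ K) →
      ∃ B ∈ S.nb n A, ∀ f ∈ F, ∀ x ∈ S.cube t B, f x ∈ S.cube t B → f x = x := by
    intro F
    induction F using Finset.induction_on with
    | empty => exact fun _ => ⟨A, S.self_nb n A, by simp⟩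
    | insert f F _ ih =>
      intro hF
      obtain ⟨B, hB, hQ⟩ := ih fun g hg => hF g (Finset.mem_insert_of_mem hg)
      have hfK := hF f (Finset.mem_insert_self _ _)
      obtain ⟨f', hf', hff⟩ := hi f hfK
      obtain ⟨C, hC, hQC⟩ := S.sparse_one f f' (hm f hfK) (hm f' hf') hff
        (S.depth_congr hB.2.symm hd)
      refine ⟨C, S.nb_trans hC hB, fun g hg x hx hgx => ?_⟩
      rcases Finset.mem_insert.1 hg with rfl | hg'
      · exact hQC x hx hgx
      · exact hQ g hg' x (S.cube_mono hC.1 hx) (S.cube_mono hC.1 hgx)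
  obtain ⟨B, hB, hQ⟩ := key hK.toFinset (by simp)
  exact ⟨B, hB, fun f hf => hQ f (by simpa using hf)⟩

/-- **Main theorem.** Every countable Borel equivalence relation on a topological Ramsey space
is hyperfinite on some `{x | x ≤ B}`, with `B ∈ [n0, A]`. -/
theorem hyperfinite_below [Countable AR] (E : R → R → Prop) (hE : Equivalence E)
    (hEm : @MeasurableSet (R × R) (@Prod.instMeasurableSpace R R S.bor S.bor)
      {p : R × R | E p.1 p.2})
    (hEc : ∀ x, {y | E x y}.Countable) (A : R) (n0 : ℕ) :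
    ∃ B ∈ S.nb n0 A, ∃ F : ℕ → R → R → Prop, (∀ n, Equivalence (F n)) ∧
      (∀ n, @MeasurableSet (R × R) (@Prod.instMeasurableSpace R R S.bor S.bor)
        {p : R × R | F n p.1 p.2}) ∧
      (∀ n x, {y | F n x y}.Finite) ∧ (∀ n x y, F n x y → F (n + 1) x y) ∧
      ∀ x y, S.le x B → S.le y B → (E x y ↔ ∃ n, F n x y) := by
  let _ := S.polish
  let _ : MeasurableSpace R := S.bor
  have : BorelSpace R := ⟨rfl⟩
  have : PolishSpace R := S.polishSpace
  obtain ⟨s, hsm, hss, hs⟩ := H139R3.FM.feldman_moore E hE hEm hEc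
  obtain ⟨B, hB, hQ⟩ := S.fusion
    (fun n B t => ∀ f ∈ Kf s (S.kk B n), ∀ x ∈ S.cube t B, f x ∈ S.cube t B → f x = x)
    (fun n A B t _ h hB f hf x hx hfx => h f (by rwa [S.kk_congr hB.2] at hf) x
      (S.cube_mono hB.1 hx) (S.cube_mono hB.1 hfx))
    (fun n A t hd => by
      obtain ⟨B, hB, h⟩ := S.sparse_fin (Kf s (S.kk A n)) (kf_fin s _) (kf_meas s hsm _)
        (kf_inv s hss _) hd
      refine ⟨B, hB, fun f hf => h f ?_⟩
      rwa [S.kk_congr hB.2] at hf) A n0
  refine ⟨B, hB, ?_⟩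
  let Y : Set R := {x | S.le x B}
  have hY : MeasurableSet Y := S.meas_le B
  let Xs : ℕ → Set R := fun n => {x | n0 ≤ n ∧ S.le x B ∧ ∃ k, S.IsDepth B (S.r k x) n}
  have hXs : ∀ n, MeasurableSet (Xs n) := by
    intro n
    have : Xs n = {x | n0 ≤ n} ∩ ({x | S.le x B} ∩
        ⋃ k, {x | S.r k x ∈ {a | S.IsDepth B a n}}) := by
      ext x
      simp only [Xs, mem_setOf_eq, mem_inter_iff, mem_iUnion]
    rw [this]
    exact (MeasurableSet.const _).inter (hY.inter (MeasurableSet.iUnion fun k => S.meas_r k _))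
  let Tn : ℕ → Set AR := fun n => {a | S.IsDepth B a n}
  have hTn : ∀ n, (Tn n).Finite := fun n => S.depth_finite B n
  have hkey := hg_key (KY s Y) (ky_refl s Y) (ky_symm s hss Y) (ky_comp s Y) Xs Tn hTn
    (fun t x => x ∈ S.cube t B)
    (by
      rintro n x ⟨_, h1, k, h2⟩
      exact ⟨S.r k x, h2, h1, k, rfl⟩)
    (by
      rintro n t ht u ⟨hn, _⟩ v _ hu hv hK
      rcases hK with h | ⟨_, _, f, hf, hfe⟩
      · exact h
      · have := hQ n hn t ht f hf u hu (by rw [hfe]; exact hv)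
        rw [← hfe, this])
  have hrE : ∀ n x y, ReflTransGen (Hg (KY s Y) Xs n) x y → E x y := by
    intro n x y h
    rcases hkey n x y h with rfl | ⟨_, _, f, hf, rfl⟩
    · exact hE.refl _
    · exact kf_rel s E hE (fun n x => (hs x _).2 ⟨n, rfl⟩) _ f hf x
  refine ⟨fun n => ReflTransGen (Hg (KY s Y) Xs n), ?_, ?_, ?_, ?_, ?_⟩
  · exact fun n => ⟨fun _ => ReflTransGen.refl, fun h => rtg_symm
      (hg_symm (KY s Y) (ky_symm s hss Y) Xs n) h, fun h h' => h.trans h'⟩
  · intro n
    refine rtg_meas s hsm _ ?_ fun x y h => (hs x y).1 (hrE n x y h)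
    have : {p : R × R | Hg (KY s Y) Xs n p.1 p.2} = ⋃ m ∈ Set.Iio n,
        ((Prod.fst ⁻¹' (Xs m) ∪ Prod.snd ⁻¹' (Xs m)) ∩ {p : R × R | KY s Y m p.1 p.2}) := by
      ext p
      simp only [Hg, mem_setOf_eq, mem_iUnion, mem_inter_iff, mem_union, mem_preimage, mem_Iio,
        exists_prop]
    rw [this]
    exact MeasurableSet.biUnion (Set.to_countable _) fun m _ =>
      ((measurable_fst (hXs m)).union (measurable_snd (hXs m))).inter (ky_meas s hsm hY m)
  · intro n x
    exact (ky_fin s Y _ x).subset fun y hy => hkey n x y hy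
  · intro n x y h
    induction h with
    | refl => exact ReflTransGen.refl
    | tail _ h ih =>
      obtain ⟨m, hm, h1, h2⟩ := h
      exact ih.tail ⟨m, by omega, h1, h2⟩
  · intro x y hx hy
    constructor
    · intro hxy
      obtain ⟨j, hj⟩ := (hs x y).1 hxy
      obtain ⟨n, hn, k, hk⟩ := S.depth_large hx (max n0 (j + 1))
      refine ⟨n + 1, ReflTransGen.single ⟨n, by omega, Or.inl ⟨by omega, hx, k, hk⟩, ?_⟩⟩
      exact kr_mono (KY s Y) (ky_refl s Y) (ky_comp s Y) (show j + 1 ≤ n by omega)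
        (Or.inr ⟨hx, hy, s j, kf_self s j, hj⟩)
    · rintro ⟨n, hn⟩
      exact hrE n x y hn

end TopRamsey

end Pool.Agent.Q203.TRS
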